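import Mathlib

set_option autoImplicit false
set_option linter.unusedSimpArgs false
set_option linter.unusedSectionVars false

namespace Pool.Agent.Results.MP_4f3acd_an.NotEquivalent

open MeasureTheory Filter Topology

section defs

variable {Ω : Type} [MeasurableSpace Ω] {μ : Measure Ω} {𝕜 : Type} [RCLike 𝕜]

/-- The class `|ξ|`. -/
noncomputable def absL (ξ : Ω →ₘ[μ] 𝕜) : Ω →ₘ[μ] ℝ := ξ.comp (fun t => ‖t‖) continuous_norm

/-- The class of the indicator of `A` (for measurable `A`). -/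
noncomputable def ind (μ : Measure Ω) (𝕜 : Type) [RCLike 𝕜] (A : Set Ω) : Ω →ₘ[μ] 𝕜 :=
  open Classical in
  if h : MeasurableSet A then
    AEEqFun.mk (A.indicator fun _ => (1 : 𝕜))
      ((stronglyMeasurable_const.indicator h).aestronglyMeasurable)
  else 0

/-- A random normed module over `L⁰(F, 𝕜)`, the base being `(Ω, F, μ)`. -/
structure RNModule (μ : Measure Ω) (𝕜 : Type) [RCLike 𝕜] (E : Type) [AddCommGroup E] where
  smul : (Ω →ₘ[μ] 𝕜) → E → E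
  nrm : E → (Ω →ₘ[μ] ℝ)
  one_smul : ∀ x, smul 1 x = x
  mul_smul : ∀ ξ η x, smul (ξ * η) x = smul ξ (smul η x)
  add_smul : ∀ ξ η x, smul (ξ + η) x = smul ξ x + smul η x
  smul_add : ∀ ξ x y, smul ξ (x + y) = smul ξ x + smul ξ y
  nrm_nonneg : ∀ x, 0 ≤ nrm x
  nrm_smul : ∀ ξ x, nrm (smul ξ x) = absL ξ * nrm x
  nrm_add_le : ∀ x y, nrm (x + y) ≤ nrm x + nrm y
  eq_zero : ∀ x, nrm x = 0 → x = 0

variable {E E₁ E₂ : Type} [AddCommGroup E] [AddCommGroup E₁] [AddCommGroup E₂]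

/-- `U` is open for the topology `T_{ε,λ}`. -/
def OpenEL (M : RNModule μ 𝕜 E) (U : Set E) : Prop :=
  ∀ x ∈ U, ∃ ε lam : ℝ, 0 < ε ∧ 0 < lam ∧ lam < 1 ∧
    ∀ y, 1 - lam < μ.real {ω | M.nrm (y - x) ω < ε} → y ∈ U

/-- `U` is open for the topology `T_c`. -/
def OpenC (M : RNModule μ 𝕜 E) (U : Set E) : Prop :=
  ∀ x ∈ U, ∃ ε : Ω →ₘ[μ] ℝ, (∀ᵐ ω ∂μ, 0 < ε ω) ∧
    ∀ y, (∀ᵐ ω ∂μ, M.nrm (y - x) ω < ε ω) → y ∈ U

/-- `V` is a neighbourhood of the set `A` for `T_{ε,λ}`. -/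
def NhdEL (M : RNModule μ 𝕜 E) (A V : Set E) : Prop := ∃ U, OpenEL M U ∧ A ⊆ U ∧ U ⊆ V

/-- `V` is a neighbourhood of the set `A` for `T_c`. -/
def NhdC (M : RNModule μ 𝕜 E) (A V : Set E) : Prop := ∃ U, OpenC M U ∧ A ⊆ U ∧ U ⊆ V

/-- `x_n → x` in `T_{ε,λ}`, i.e. in probability. -/
def TendsEL (M : RNModule μ 𝕜 E) (x : ℕ → E) (x₀ : E) : Prop :=
  ∀ ε lam : ℝ, 0 < ε → 0 < lam → lam < 1 →
    ∀ᶠ n in atTop, 1 - lam < μ.real {ω | M.nrm (x n - x₀) ω < ε}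

/-- Countable measurable partition of `Ω`. -/
def IsPartition (a : ℕ → Set Ω) : Prop :=
  (∀ k, MeasurableSet (a k)) ∧ Pairwise (fun i j => Disjoint (a i) (a j)) ∧ ⋃ k, a k = Set.univ

/-- `z = ∑ I_{a_k} x_k`. -/
def IsConcat (M : RNModule μ 𝕜 E) (a : ℕ → Set Ω) (x : ℕ → E) (z : E) : Prop :=
  ∀ k, M.smul (ind μ 𝕜 (a k)) z = M.smul (ind μ 𝕜 (a k)) (x k)

/-- `σ`-stable sets. -/
def SigmaStable (M : RNModule μ 𝕜 E) (X : Set E) : Prop :=
  X.Nonempty ∧ ∀ a : ℕ → Set Ω, IsPartition a → ∀ x : ℕ → E, (∀ k, x k ∈ X) →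
    ∃ z ∈ X, IsConcat M a x z

/-- `F` is a `σ`-stable map from `X` to the nonempty subsets of `Y`. -/
def SigmaStableMap (M₁ : RNModule μ 𝕜 E₁) (M₂ : RNModule μ 𝕜 E₂) (X : Set E₁) (Y : Set E₂)
    (F : E₁ → Set E₂) : Prop :=
  (∀ x ∈ X, (F x).Nonempty ∧ F x ⊆ Y) ∧
  ∀ a : ℕ → Set Ω, IsPartition a → ∀ x : ℕ → E₁, (∀ k, x k ∈ X) → ∀ z ∈ X, IsConcat M₁ a x z →
    ∀ w, w ∈ F z ↔ ∃ y : ℕ → E₂, (∀ k, y k ∈ F (x k)) ∧ IsConcat M₂ a y w

/-- `z` is a random subsequence of `x`. -/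
def IsRandomSubseq (M : RNModule μ 𝕜 E) (x : ℕ → E) (z : ℕ → E) : Prop :=
  ∃ n : ℕ → Ω → ℕ, (∀ k, Measurable (n k)) ∧ (∀ k, ∀ᵐ ω ∂μ, n k ω < n (k + 1) ω) ∧
    ∀ k, IsConcat M (fun l => {ω | n k ω = l}) x (z k)

/-- `T_c`-upper semicontinuity. -/
def UscC (M₁ : RNModule μ 𝕜 E₁) (M₂ : RNModule μ 𝕜 E₂) (X : Set E₁) (F : E₁ → Set E₂) : Prop :=
  ∀ x₀ ∈ X, ∀ U, NhdC M₂ (F x₀) U → ∃ V, NhdC M₁ {x₀} V ∧ ∀ x ∈ V ∩ X, F x ⊆ U

/-- Random sequential upper semicontinuity. -/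
def UscRandomSeq (M₁ : RNModule μ 𝕜 E₁) (M₂ : RNModule μ 𝕜 E₂) (X : Set E₁)
    (F : E₁ → Set E₂) : Prop :=
  ∀ x₀ ∈ X, ∀ x : ℕ → E₁, (∀ n, x n ∈ X) → TendsEL M₁ x x₀ → ∀ V, NhdEL M₂ (F x₀) V →
    ∃ z : ℕ → E₁, (∀ k, z k ∈ X) ∧ IsRandomSubseq M₁ x z ∧ ∃ k₀, ∀ k ≥ k₀, F (z k) ⊆ V

end defs

section nat

variable {μ : Measure ℕ} {𝕜 : Type} [RCLike 𝕜]

theorem ae_all (hμ : ∀ n, μ {n} ≠ 0) {p : ℕ → Prop} (h : ∀ᵐ n ∂μ, p n) (n : ℕ) : p n := by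
  by_contra hn
  apply hμ n
  rw [ae_iff] at h
  exact measure_mono_null (by intro m hm; rw [Set.mem_singleton_iff.mp hm]; exact hn) h

theorem sm {β : Type} [TopologicalSpace β] (f : ℕ → β) :
    AEStronglyMeasurable f μ := StronglyMeasurable.of_discrete.aestronglyMeasurable

theorem mk_apply (hμ : ∀ n, μ {n} ≠ 0) {β : Type} [TopologicalSpace β] (f : ℕ → β) (n : ℕ) :
    (AEEqFun.mk f (sm f) : ℕ →ₘ[μ] β) n = f n :=
  ae_all hμ (AEEqFun.coeFn_mk f (sm f)) n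

theorem ext' (hμ : ∀ n, μ {n} ≠ 0) {β : Type} [TopologicalSpace β] {f g : ℕ →ₘ[μ] β} :
    f = g ↔ ∀ n, f n = g n := by
  constructor
  · rintro rfl n; rfl
  · intro h
    exact AEEqFun.ext (Eventually.of_forall h)

theorem mul_ap (hμ : ∀ n, μ {n} ≠ 0) (f g : ℕ →ₘ[μ] 𝕜) (n : ℕ) : (f * g) n = f n * g n :=
  ae_all hμ (AEEqFun.coeFn_mul f g) n

theorem add_ap (hμ : ∀ n, μ {n} ≠ 0) (f g : ℕ →ₘ[μ] 𝕜) (n : ℕ) : (f + g) n = f n + g n :=
  ae_all hμ (AEEqFun.coeFn_add f g) n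

theorem sub_ap (hμ : ∀ n, μ {n} ≠ 0) (f g : ℕ →ₘ[μ] 𝕜) (n : ℕ) : (f - g) n = f n - g n :=
  ae_all hμ (AEEqFun.coeFn_sub f g) n

theorem zero_ap (hμ : ∀ n, μ {n} ≠ 0) (n : ℕ) : (0 : ℕ →ₘ[μ] 𝕜) n = 0 :=
  ae_all hμ (AEEqFun.coeFn_zero) n

theorem one_ap (hμ : ∀ n, μ {n} ≠ 0) (n : ℕ) : (1 : ℕ →ₘ[μ] 𝕜) n = 1 :=
  ae_all hμ (AEEqFun.coeFn_one) n

theorem abs_ap (hμ : ∀ n, μ {n} ≠ 0) (f : ℕ →ₘ[μ] 𝕜) (n : ℕ) : absL f n = ‖f n‖ :=
  ae_all hμ (AEEqFun.coeFn_comp _ continuous_norm f) n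

theorem ind_ap (hμ : ∀ n, μ {n} ≠ 0) (A : Set ℕ) (n : ℕ) :
    ind μ 𝕜 A n = A.indicator (fun _ => (1 : 𝕜)) n := by
  unfold ind
  rw [dif_pos (MeasurableSet.of_discrete)]
  exact ae_all hμ (AEEqFun.coeFn_mk _ _) n

/-- `L⁰(ℕ, 𝕜)` as an RN module over itself -/
noncomputable def modL (hμ : ∀ n, μ {n} ≠ 0) (𝕜 : Type) [RCLike 𝕜] :
    RNModule μ 𝕜 (ℕ →ₘ[μ] 𝕜) where
  smul ξ x := ξ * x
  nrm := absL
  one_smul x := one_mul x
  mul_smul ξ η x := mul_assoc ξ η x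
  add_smul ξ η x := by
    rw [ext' hμ]; intro n
    simp only [mul_ap hμ, add_ap hμ]; ring
  smul_add ξ x y := by
    rw [ext' hμ]; intro n
    simp only [mul_ap hμ, add_ap hμ]; ring
  nrm_nonneg x := by
    rw [← AEEqFun.coeFn_le]
    refine Eventually.of_forall fun n => ?_
    rw [abs_ap hμ, zero_ap hμ]
    exact norm_nonneg _
  nrm_smul ξ x := by
    rw [ext' hμ]; intro n
    rw [mul_ap hμ, abs_ap hμ, abs_ap hμ, abs_ap hμ, mul_ap hμ, norm_mul]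
  nrm_add_le x y := by
    rw [← AEEqFun.coeFn_le]
    refine Eventually.of_forall fun n => ?_
    rw [add_ap hμ, abs_ap hμ, abs_ap hμ, abs_ap hμ, add_ap hμ]
    exact norm_add_le _ _
  eq_zero x h := by
    rw [ext' hμ] at h ⊢; intro n
    have := h n
    rw [abs_ap hμ, zero_ap hμ] at this
    rw [zero_ap hμ]
    exact norm_eq_zero.mp this

theorem nrm_ap (hμ : ∀ n, μ {n} ≠ 0) (f : ℕ →ₘ[μ] 𝕜) (n : ℕ) :
    (modL hμ 𝕜).nrm f n = ‖f n‖ := abs_ap hμ f n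

theorem concat_iff (hμ : ∀ n, μ {n} ≠ 0) (a : ℕ → Set ℕ) (x : ℕ → (ℕ →ₘ[μ] 𝕜))
    (z : ℕ →ₘ[μ] 𝕜) : IsConcat (modL hμ 𝕜) a x z ↔ ∀ k, ∀ n ∈ a k, z n = x k n := by
  unfold IsConcat
  refine forall_congr' fun k => ?_
  show ind μ 𝕜 (a k) * z = ind μ 𝕜 (a k) * x k ↔ _
  rw [ext' hμ]
  refine forall_congr' fun n => ?_
  rw [mul_ap hμ, mul_ap hμ, ind_ap hμ]
  by_cases hn : n ∈ a k
  · simp [hn]
  · simp [hn]

theorem sstable_univ (hμ : ∀ n, μ {n} ≠ 0) : SigmaStable (modL hμ 𝕜) Set.univ := by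
  refine ⟨⟨0, trivial⟩, ?_⟩
  intro a ha x _
  have hk : ∀ n : ℕ, ∃ k, n ∈ a k := by
    intro n
    have : n ∈ ⋃ k, a k := by rw [ha.2.2]; trivial
    exact Set.mem_iUnion.mp this
  choose κ hκ using hk
  refine ⟨AEEqFun.mk (fun n => x (κ n) n) (sm _), trivial, ?_⟩
  rw [concat_iff]
  intro k n hn
  rw [mk_apply hμ]
  have : κ n = k := by
    by_contra h
    exact Set.disjoint_left.mp (ha.2.1 h) (hκ n) hn
  rw [this]

/-- the map `F(x) = [0, 1 + |x|]` -/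
def FF (x : ℕ →ₘ[μ] 𝕜) : Set (ℕ →ₘ[μ] 𝕜) :=
  {y | ∀ n, ∃ r : ℝ, y n = (r : 𝕜) ∧ 0 ≤ r ∧ r ≤ 1 + ‖x n‖}

theorem FF_stable (hμ : ∀ n, μ {n} ≠ 0) :
    SigmaStableMap (modL hμ 𝕜) (modL hμ 𝕜) Set.univ Set.univ FF := by
  refine ⟨fun x _ => ⟨⟨0, ?_⟩, fun _ _ => trivial⟩, ?_⟩
  · intro n
    refine ⟨0, ?_, le_rfl, by positivity⟩
    rw [zero_ap hμ]; simp
  · intro a ha x _ z _ hz w
    rw [concat_iff] at hz
    constructor
    · intro hw
      refine ⟨fun k => AEEqFun.mk (fun n => open Classical in if n ∈ a k then w n else 0) (sm _),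
        ?_, ?_⟩
      · intro k n
        rw [mk_apply hμ]
        split_ifs with h
        · obtain ⟨r, h1, h2, h3⟩ := hw n
          refine ⟨r, h1, h2, ?_⟩
          rw [← hz k n h]; exact h3
        · exact ⟨0, by simp, le_rfl, by positivity⟩
      · rw [concat_iff]
        intro k n hn
        rw [mk_apply hμ, if_pos hn]
    · rintro ⟨y, hy, hyw⟩ n
      rw [concat_iff] at hyw
      have : n ∈ ⋃ k, a k := by rw [ha.2.2]; trivial
      obtain ⟨k, hk⟩ := Set.mem_iUnion.mp this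
      obtain ⟨r, h1, h2, h3⟩ := hy k n
      refine ⟨r, ?_, h2, ?_⟩
      · rw [hyw k n hk, h1]
      · rw [hz k n hk]; exact h3

theorem tends_pt [IsProbabilityMeasure μ] (hμ : ∀ n, μ {n} ≠ 0) (x : ℕ → (ℕ →ₘ[μ] 𝕜))
    (x₀ : ℕ →ₘ[μ] 𝕜) (h : TendsEL (modL hμ 𝕜) x x₀) (n : ℕ) :
    Tendsto (fun k => x k n) atTop (𝓝 (x₀ n)) := by
  rw [Metric.tendsto_atTop]
  intro ε hε
  have hpos : 0 < μ.real {n} := by
    rw [measureReal_def]
    exact ENNReal.toReal_pos (hμ n) (measure_ne_top _ _)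
  have h1 := h ε (min (μ.real {n}) (1 / 2)) hε (by positivity)
    (lt_of_le_of_lt (min_le_right _ _) (by norm_num))
  obtain ⟨N, hN⟩ := eventually_atTop.mp h1
  refine ⟨N, fun k hk => ?_⟩
  have h2 := hN k hk
  rw [dist_eq_norm]
  by_contra hcon
  have hsub : {ω | (modL hμ 𝕜).nrm (x k - x₀) ω < ε} ⊆ {n}ᶜ := by
    intro m hm
    rw [Set.mem_compl_iff, Set.mem_singleton_iff]
    rintro rfl
    apply hcon
    have : absL (x k - x₀) m < ε := hm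
    rwa [abs_ap hμ, sub_ap hμ] at this
  have h3 : μ.real {ω | (modL hμ 𝕜).nrm (x k - x₀) ω < ε} ≤ μ.real {n}ᶜ :=
    measureReal_mono hsub (measure_ne_top _ _)
  have h4 : μ.real {n}ᶜ = 1 - μ.real {n} := by
    rw [measureReal_compl (MeasurableSet.singleton n)]
    simp
  have h5 : min (μ.real {n}) (1 / 2) ≤ μ.real {n} := min_le_left _ _
  linarith

theorem open_seq [IsProbabilityMeasure μ] (hμ : ∀ n, μ {n} ≠ 0) (U : Set (ℕ →ₘ[μ] 𝕜))
    (hU : OpenEL (modL hμ 𝕜) U) (y : ℕ →ₘ[μ] 𝕜) (hy : y ∈ U) (z : ℕ → (ℕ →ₘ[μ] 𝕜))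
    (hz : ∀ n, Tendsto (fun k => z k n) atTop (𝓝 (y n))) : ∃ k, z k ∈ U := by
  obtain ⟨ε, lam, hε, hlam, hlam1, hball⟩ := hU y hy
  have h1 : Tendsto (fun N : ℕ => μ {n | n ≤ N}) atTop (𝓝 (μ (⋃ N : ℕ, {n | n ≤ N}))) := by
    apply tendsto_measure_iUnion_atTop
    intro a b hab n hn
    exact le_trans hn hab
  have h2 : (⋃ N : ℕ, {n : ℕ | n ≤ N}) = Set.univ := by
    ext n
    simp only [Set.mem_iUnion, Set.mem_univ, iff_true]
    exact ⟨n, show n ≤ n from le_rfl⟩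
  rw [h2, measure_univ] at h1
  have h3 : Tendsto (fun N : ℕ => μ.real {n | n ≤ N}) atTop (𝓝 1) := by
    have := (ENNReal.tendsto_toReal ENNReal.one_ne_top).comp h1
    simpa [Function.comp_def, measureReal_def] using this
  obtain ⟨N, hN⟩ := (h3.eventually_const_lt (by linarith : 1 - lam < 1)).exists
  have h4 : ∀ᶠ k in atTop, ∀ n ∈ Finset.range (N + 1), ‖z k n - y n‖ < ε := by
    rw [Filter.eventually_all_finset]
    intro n _
    have := Metric.tendsto_atTop.mp (hz n) ε hε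
    obtain ⟨K, hK⟩ := this
    filter_upwards [eventually_ge_atTop K] with k hk
    rw [← dist_eq_norm]; exact hK k hk
  obtain ⟨k, hk⟩ := h4.exists
  refine ⟨k, hball _ (lt_of_lt_of_le hN ?_)⟩
  apply measureReal_mono _ (measure_ne_top _ _)
  intro n hn
  show absL (z k - y) n < ε
  rw [abs_ap hμ, sub_ap hμ]
  exact hk n (Finset.mem_range.mpr (Nat.lt_succ_of_le hn))

theorem FF_usc [IsProbabilityMeasure μ] (hμ : ∀ n, μ {n} ≠ 0) :
    UscRandomSeq (modL hμ 𝕜) (modL hμ 𝕜) Set.univ FF := by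
  intro x₀ _ x _ hx V ⟨U, hU, hFU, hUV⟩
  refine ⟨x, fun _ => trivial, ⟨fun k _ => k, fun _ => measurable_const,
    fun k => Eventually.of_forall fun _ => Nat.lt_succ_self k, ?_⟩, ?_⟩
  · intro k
    rw [concat_iff]
    intro l n hn
    rw [show k = l from hn]
  · have hpt := tends_pt hμ x x₀ hx
    by_contra hcon
    push Not at hcon
    have hfreq : ∃ᶠ k in atTop, ∃ y ∈ FF (x k), y ∉ V := by
      rw [Filter.frequently_atTop]
      intro k₀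
      obtain ⟨k, hk, hk'⟩ := hcon k₀
      rw [Set.not_subset] at hk'
      obtain ⟨y, hy, hyV⟩ := hk'
      exact ⟨k, hk, y, hy, hyV⟩
    obtain ⟨φ, hφ, hP⟩ := extraction_of_frequently_atTop hfreq
    choose y hy hyV using hP
    have hbd : ∀ n, ∃ R, ∀ j, ‖y j n‖ ≤ R := by
      intro n
      obtain ⟨R, hR⟩ := (hpt n).norm.bddAbove_range
      refine ⟨1 + R, fun j => ?_⟩
      obtain ⟨r, h1, h2, h3⟩ := hy j n
      rw [h1, RCLike.norm_ofReal, abs_of_nonneg h2]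
      have := hR ⟨φ j, rfl⟩
      simp only at this
      linarith
    choose R hR using hbd
    have hcomp : IsCompact (Set.pi Set.univ fun n => Metric.closedBall (0 : 𝕜) (R n)) :=
      isCompact_univ_pi fun n => isCompact_closedBall _ _
    obtain ⟨a, -, ψ, hψ, hlim⟩ := hcomp.tendsto_subseq (x := fun j n => y j n) (fun j n _ => by
      rw [mem_closedBall_zero_iff]; exact hR n j)
    rw [tendsto_pi_nhds] at hlim
    have hxlim : ∀ n, Tendsto (fun j => ‖x (φ (ψ j)) n‖) atTop (𝓝 ‖x₀ n‖) := fun n =>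
      ((hpt n).comp (hφ.tendsto_atTop.comp hψ.tendsto_atTop)).norm
    have ha : AEEqFun.mk a (sm a) ∈ FF x₀ := by
      intro n
      rw [mk_apply hμ]
      have hre : ∀ j, ((RCLike.re (y (ψ j) n) : ℝ) : 𝕜) = y (ψ j) n := by
        intro j
        obtain ⟨r, h1, _, _⟩ := hy (ψ j) n
        rw [h1, RCLike.ofReal_re]
      have hrb : ∀ j, 0 ≤ RCLike.re (y (ψ j) n) ∧ RCLike.re (y (ψ j) n) ≤ 1 + ‖x (φ (ψ j)) n‖ := by
        intro j
        obtain ⟨r, h1, h2, h3⟩ := hy (ψ j) n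
        rw [h1, RCLike.ofReal_re]
        exact ⟨h2, h3⟩
      have hrl : Tendsto (fun j => RCLike.re (y (ψ j) n)) atTop (𝓝 (RCLike.re (a n))) :=
        (RCLike.continuous_re.tendsto _).comp (hlim n)
      refine ⟨RCLike.re (a n), ?_, ?_, ?_⟩
      · have h1 : Tendsto (fun j => ((RCLike.re (y (ψ j) n) : ℝ) : 𝕜)) atTop
            (𝓝 ((RCLike.re (a n) : ℝ) : 𝕜)) := (RCLike.continuous_ofReal.tendsto _).comp hrl
        simp only [hre] at h1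
        exact tendsto_nhds_unique (hlim n) h1
      · exact ge_of_tendsto' hrl fun j => (hrb j).1
      · exact le_of_tendsto_of_tendsto' hrl ((hxlim n).const_add 1) fun j => (hrb j).2
    obtain ⟨j, hj⟩ := open_seq hμ U hU _ (hFU ha) (fun j => y (ψ j)) (fun n => by
      rw [mk_apply hμ]; exact hlim n)
    exact hyV (ψ j) (hUV hj)

/-- the bad sequence -/
noncomputable def YY (μ : Measure ℕ) (𝕜 : Type) [RCLike 𝕜] (m : ℕ) : ℕ →ₘ[μ] 𝕜 :=
  AEEqFun.mk (fun n => if n = 0 then ((1 + 1 / ((m : ℝ) + 1) : ℝ) : 𝕜)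
    else if n = m + 1 then 1 else 0) (sm _)

theorem YY_zero (hμ : ∀ n, μ {n} ≠ 0) (m : ℕ) :
    YY μ 𝕜 m 0 = ((1 + 1 / ((m : ℝ) + 1) : ℝ) : 𝕜) := by
  unfold YY; rw [mk_apply hμ]; simp

theorem YY_succ (hμ : ∀ n, μ {n} ≠ 0) (m n : ℕ) :
    YY μ 𝕜 m (n + 1) = if n = m then 1 else 0 := by
  unfold YY; rw [mk_apply hμ]; simp

theorem FF_not_usc (hμ : ∀ n, μ {n} ≠ 0) :
    ¬ UscC (modL hμ 𝕜) (modL hμ 𝕜) Set.univ FF := by
  intro h
  have hopen : OpenC (modL hμ 𝕜) {y | ∀ m, y ≠ YY μ 𝕜 m} := by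
    intro y hy
    by_cases hA : ∀ m, y (m + 1) ≠ 1
    · refine ⟨AEEqFun.mk (fun n => if n = 0 then 1 else ‖y n - 1‖) (sm _), ?_, ?_⟩
      · refine Eventually.of_forall fun n => ?_
        rw [mk_apply hμ]
        split_ifs with h0
        · norm_num
        · obtain ⟨m, rfl⟩ := Nat.exists_eq_succ_of_ne_zero h0
          exact norm_pos_iff.mpr (sub_ne_zero.mpr (hA m))
      · rintro z hz m rfl
        have h1 := ae_all hμ hz (m + 1)
        have h2 : absL (YY μ 𝕜 m - y) (m + 1) < _ := h1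
        rw [abs_ap hμ, sub_ap hμ, mk_apply hμ, YY_succ hμ, if_pos rfl, if_neg (Nat.succ_ne_zero m),
          norm_sub_rev] at h2
        exact lt_irrefl _ h2
    · push Not at hA
      obtain ⟨m₀, hm₀⟩ := hA
      have hne := hy m₀
      rw [Ne, ext' hμ] at hne
      push Not at hne
      obtain ⟨i, hi⟩ := hne
      refine ⟨AEEqFun.mk (fun n => if n = i then min 1 ‖YY μ 𝕜 m₀ i - y i‖ else 1) (sm _), ?_, ?_⟩
      · refine Eventually.of_forall fun n => ?_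
        rw [mk_apply hμ]
        split_ifs with h0
        · exact lt_min one_pos (norm_pos_iff.mpr (sub_ne_zero.mpr (Ne.symm hi)))
        · norm_num
      · rintro z hz m rfl
        have h1 := ae_all hμ hz (m₀ + 1)
        have h2 : absL (YY μ 𝕜 m - y) (m₀ + 1) < _ := h1
        rw [abs_ap hμ, sub_ap hμ, mk_apply hμ, YY_succ hμ, hm₀] at h2
        have hm : m₀ = m := by
          by_contra hmm
          rw [if_neg hmm, zero_sub, norm_neg, norm_one] at h2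
          split_ifs at h2
          · exact absurd (lt_of_lt_of_le h2 (min_le_left _ _)) (lt_irrefl _)
          · exact lt_irrefl _ h2
        subst hm
        have h3 := ae_all hμ hz i
        have h4 : absL (YY μ 𝕜 m₀ - y) i < _ := h3
        rw [abs_ap hμ, sub_ap hμ, mk_apply hμ, if_pos rfl] at h4
        exact absurd (lt_of_lt_of_le h4 (min_le_right _ _)) (lt_irrefl _)
  have hFU : FF 0 ⊆ {y | ∀ m, y ≠ YY μ 𝕜 m} := by
    intro y hy m hym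
    obtain ⟨r, h1, h2, h3⟩ := hy 0
    rw [hym, YY_zero hμ, RCLike.ofReal_inj] at h1
    rw [zero_ap hμ, norm_zero, ← h1] at h3
    have : 0 < 1 / ((m : ℝ) + 1) := by positivity
    linarith
  obtain ⟨V, ⟨U', hU', h0U', hU'V⟩, hV⟩ := h 0 trivial {y | ∀ m, y ≠ YY μ 𝕜 m}
    ⟨_, hopen, hFU, subset_rfl⟩
  · obtain ⟨ε, hε, hball⟩ := hU' 0 (h0U' rfl)
    obtain ⟨m, hm⟩ := exists_nat_one_div_lt (ae_all hμ hε 0)
    have hx : (AEEqFun.mk (fun n => if n = 0 then ((1 / ((m : ℝ) + 1) : ℝ) : 𝕜) else 0) (sm _) :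
        ℕ →ₘ[μ] 𝕜) ∈ V := by
      apply hU'V
      apply hball
      refine Eventually.of_forall fun n => ?_
      rw [nrm_ap, sub_ap hμ, mk_apply hμ, zero_ap hμ, sub_zero]
      split_ifs with h0
      · subst h0
        rw [RCLike.norm_ofReal, abs_of_pos (by positivity)]
        exact hm
      · rw [norm_zero]; exact ae_all hμ hε n
    have h1 := hV _ ⟨hx, trivial⟩
    have h2 : YY μ 𝕜 m ∈ FF (AEEqFun.mk (fun n => if n = 0 then ((1 / ((m : ℝ) + 1) : ℝ) : 𝕜)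
        else 0) (sm _) : ℕ →ₘ[μ] 𝕜) := by
      intro n
      rw [mk_apply hμ]
      rcases n with _ | n
      · refine ⟨1 + 1 / ((m : ℝ) + 1), YY_zero hμ m, by positivity, ?_⟩
        rw [if_pos rfl, RCLike.norm_ofReal, abs_of_pos (by positivity)]
      · rw [YY_succ hμ, if_neg (Nat.succ_ne_zero n)]
        split_ifs with h3
        · exact ⟨1, by simp, by norm_num, by simp⟩
        · exact ⟨0, by simp, le_rfl, by positivity⟩
    exact h1 h2 m rfl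

end nat

theorem exists_measure : ∃ μ : Measure ℕ, IsProbabilityMeasure μ ∧ ∀ n, μ {n} ≠ 0 := by
  refine ⟨ProbabilityTheory.geometricMeasure ⟨1 / 2, by norm_num, by norm_num⟩, inferInstance, ?_⟩
  intro n
  have h0 : (⟨1 / 2, by norm_num, by norm_num⟩ : unitInterval) ≠ 0 := by
    intro h
    have := congrArg Subtype.val h
    norm_num at this
  rw [ProbabilityTheory.geometricMeasure_singleton h0]
  have : (0 : ℝ) < (1 - 1 / 2) ^ n * (1 / 2) := by norm_num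
  exact (ENNReal.ofReal_pos.mpr this).ne'

/-- Random sequential upper semicontinuity does not imply `T_c`-upper semicontinuity. -/
theorem result (𝕜 : Type) [RCLike 𝕜] :
    ∃ (Ω : Type) (_ : MeasurableSpace Ω) (μ : Measure Ω) (_ : IsProbabilityMeasure μ)
      (E₁ E₂ : Type) (_ : AddCommGroup E₁) (_ : AddCommGroup E₂)
      (M₁ : RNModule μ 𝕜 E₁) (M₂ : RNModule μ 𝕜 E₂) (X : Set E₁) (Y : Set E₂) (F : E₁ → Set E₂),
      SigmaStable M₁ X ∧ SigmaStable M₂ Y ∧ SigmaStableMap M₁ M₂ X Y F ∧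
      UscRandomSeq M₁ M₂ X F ∧ ¬ UscC M₁ M₂ X F := by
  obtain ⟨μ, hp, hμ⟩ := exists_measure
  exact ⟨ℕ, inferInstance, μ, hp, ℕ →ₘ[μ] 𝕜, ℕ →ₘ[μ] 𝕜, inferInstance, inferInstance, modL hμ 𝕜,
    modL hμ 𝕜, Set.univ, Set.univ, FF, sstable_univ hμ, sstable_univ hμ, FF_stable hμ,
    FF_usc hμ, FF_not_usc hμ⟩

end Pool.Agent.Results.MP_4f3acd_an.NotEquivalent
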